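import Pool.Agent.N205.WT.Stm
import Pool.Agent.R80.WF.Nd

/-!
# WT/4 (helper592): no power of a root generates a smaller field (prime 2)
-/

set_option autoImplicit false

namespace Pool.Agent.N592.WT

open Polynomial Pool.Agent.R80.WF.NdAux

/-- there is a maximal ideal of the ring of algebraic integers containing `2` -/
theorem exists_max : ∃ M : Ideal (integralClosure ℤ ℂ), M.IsMaximal ∧
    (2 : integralClosure ℤ ℂ) ∈ M := by
  have h : Ideal.span {(2 : integralClosure ℤ ℂ)} ≠ ⊤ := by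
    intro htop
    rw [Ideal.span_singleton_eq_top, isUnit_iff_exists_inv] at htop
    obtain ⟨w, hw⟩ := htop
    have hw1 : (2 : ℂ) * (w : ℂ) = 1 := by
      exact congrArg (fun z : integralClosure ℤ ℂ => (z : ℂ)) hw
    have hw2 : (w : ℂ) = algebraMap ℚ ℂ (1 / 2) := by
      rw [eq_ratCast]
      push_cast
      linear_combination (1 / 2 : ℂ) * hw1
    have hint : IsIntegral ℤ (w : ℂ) := w.2
    rw [hw2] at hint
    have hint2 : IsIntegral ℤ (1 / 2 : ℚ) :=
      (isIntegral_algebraMap_iff (algebraMap ℚ ℂ).injective).1 hint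
    obtain ⟨z, hz⟩ := IsIntegrallyClosed.isIntegral_iff.1 hint2
    have hz' : (z : ℚ) = 1 / 2 := hz
    have hz2 : (2 : ℚ) * z = 1 := by rw [hz']; norm_num
    have hz3 : 2 * z = 1 := by exact_mod_cast hz2
    omega
  obtain ⟨M, hM, hle⟩ := Ideal.exists_le_maximal _ h
  exact ⟨M, hM, hle (Ideal.mem_span_singleton_self _)⟩

/-- a monic polynomial whose value at `1` lies in the prime `M` has a root congruent to `1` -/
theorem exists_root_one (M : Ideal (integralClosure ℤ ℂ)) (hM : M.IsPrime) (P : ℤ[X])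
    (hP : P.Monic) (h1 : ((P.eval 1 : ℤ) : integralClosure ℤ ℂ) ∈ M) :
    ∃ w : integralClosure ℤ ℂ, aeval (w : ℂ) P = 0 ∧ 1 - w ∈ M := by
  have claim : ∀ s : Multiset ℂ, (∀ r ∈ s, aeval r P = 0) →
      ∃ z : integralClosure ℤ ℂ, (z : ℂ) = (s.map (fun r => 1 - r)).prod ∧
        (z ∈ M → ∃ w : integralClosure ℤ ℂ, aeval (w : ℂ) P = 0 ∧ 1 - w ∈ M) := by
    intro s
    induction s using Multiset.induction_on with
    | empty =>
      intro _
      refine ⟨1, by simp, fun h => ?_⟩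
      exact absurd ((Ideal.eq_top_iff_one M).2 h) hM.ne_top
    | cons a s ih =>
      intro hs
      obtain ⟨z, hz, hz2⟩ := ih fun r hr => hs r (Multiset.mem_cons_of_mem hr)
      have ha : aeval a P = 0 := hs a (Multiset.mem_cons_self a s)
      let w : integralClosure ℤ ℂ := ⟨a, ⟨P, hP, ha⟩⟩
      refine ⟨(1 - w) * z, ?_, fun h => ?_⟩
      · rw [Multiset.map_cons, Multiset.prod_cons, ← hz]
        rfl
      · rcases hM.mem_or_mem h with h2 | h2
        · exact ⟨w, ha, h2⟩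
        · exact hz2 h2
  have hmon : (P.map (algebraMap ℤ ℂ)).Monic := hP.map _
  have hsp : (P.map (algebraMap ℤ ℂ)).Splits := IsAlgClosed.splits _
  obtain ⟨z, hz, hz2⟩ := claim (P.map (algebraMap ℤ ℂ)).roots (by
    intro r hr
    rw [mem_roots hmon.ne_zero, IsRoot.def, eval_map_algebraMap] at hr
    exact hr)
  apply hz2
  have h2 : z = ((P.eval 1 : ℤ) : integralClosure ℤ ℂ) := by
    apply Subtype.ext
    rw [hz]
    have h3 : (P.map (algebraMap ℤ ℂ)).eval 1 =
        ((P.map (algebraMap ℤ ℂ)).roots.map (fun r => 1 - r)).prod := by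
      conv_lhs => rw [hsp.eq_prod_roots_of_monic hmon]
      rw [eval_multiset_prod, Multiset.map_map]
      simp
    rw [← h3, eval_map_algebraMap]
    have h4 : aeval (1 : ℂ) P = ((P.eval 1 : ℤ) : ℂ) := by
      have := aeval_algebraMap_apply ℂ (1 : ℤ) P
      simpa using this
    rw [h4]
    simp
  rw [h2]
  exact h1

/-- modulo a prime containing `2`, an algebraic integer root is `0` or `1` -/
theorem mod_root (M : Ideal (integralClosure ℤ ℂ)) (hM : M.IsPrime)
    (h2 : (2 : integralClosure ℤ ℂ) ∈ M) (P : ℤ[X]) (e f : ℕ)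
    (hP : P.map (Int.castRingHom (ZMod 2)) = X ^ e * (X + 1) ^ f) (w : integralClosure ℤ ℂ)
    (hw : aeval (w : ℂ) P = 0) : w ∈ M ∨ 1 - w ∈ M := by
  obtain ⟨R, hR⟩ := two_dvd (P - X ^ e * (X + 1) ^ f) (by
    rw [Polynomial.map_sub, hP, Polynomial.map_mul, Polynomial.map_pow,
      Polynomial.map_pow, Polynomial.map_add, Polynomial.map_X, Polynomial.map_one, sub_self])
  have hw' : aeval w P = 0 := by
    have h3 : algebraMap (integralClosure ℤ ℂ) ℂ (aeval w P) = 0 := by
      rw [← aeval_algebraMap_apply]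
      exact hw
    exact Subtype.ext h3
  have h4 := congrArg (aeval w) hR
  simp only [map_sub, map_mul, map_pow, map_add, aeval_X, map_one, hw', aeval_C] at h4
  have h5 : w ^ e * (w + 1) ^ f ∈ M := by
    have h6 : w ^ e * (w + 1) ^ f = -(algebraMap ℤ (integralClosure ℤ ℂ) 2 * aeval w R) := by
      rw [← h4]; ring
    rw [h6]
    refine M.neg_mem (M.mul_mem_right _ ?_)
    have h7 : algebraMap ℤ (integralClosure ℤ ℂ) 2 = 2 := by simp
    rw [h7]
    exact h2
  rcases hM.mem_or_mem h5 with h6 | h6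
  · exact Or.inl (hM.mem_of_pow_mem _ h6)
  · right
    have h7 := hM.mem_of_pow_mem _ h6
    have h8 : 1 - w = 2 - (w + 1) := by ring
    rw [h8]
    exact M.sub_mem h2 h7

theorem geom_mem (M : Ideal (integralClosure ℤ ℂ)) (u v : integralClosure ℤ ℂ)
    (hu : 1 - u ∈ M) (hv : 1 - v ∈ M) (m : ℕ) :
    (m : integralClosure ℤ ℂ) - ∑ i ∈ Finset.range m, u ^ i * v ^ (m - 1 - i) ∈ M := by
  have hpow : ∀ (w : integralClosure ℤ ℂ) (j : ℕ), 1 - w ∈ M → 1 - w ^ j ∈ M := by
    intro w j hw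
    have h1 : 1 - w ^ j = (∑ i ∈ Finset.range j, w ^ i) * (1 - w) := by
      rw [geom_sum_mul_neg]
    rw [h1]
    exact M.mul_mem_left _ hw
  have h2 : (m : integralClosure ℤ ℂ) - ∑ i ∈ Finset.range m, u ^ i * v ^ (m - 1 - i) =
      ∑ i ∈ Finset.range m, (1 - u ^ i * v ^ (m - 1 - i)) := by
    rw [Finset.sum_sub_distrib]
    simp
  rw [h2]
  refine M.sum_mem fun i _ => ?_
  have h3 : 1 - u ^ i * v ^ (m - 1 - i) = (1 - u ^ i) + u ^ i * (1 - v ^ (m - 1 - i)) := by ring
  rw [h3]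
  exact M.add_mem (hpow u i hu) (M.mul_mem_left _ (hpow v _ hv))

theorem key1 (M : Ideal (integralClosure ℤ ℂ)) (hM : M.IsPrime)
    (h2 : (2 : integralClosure ℤ ℂ) ∈ M) (P : ℤ[X]) (e f : ℕ)
    (hP : P.map (Int.castRingHom (ZMod 2)) = X ^ e * (X + 1) ^ f) (x y : integralClosure ℤ ℂ)
    (hx : 1 - x ∈ M) (hy : aeval (y : ℂ) P = 0) (a m : ℕ) (hm : Odd m)
    (hxy : y ^ (2 ^ a * m) = x ^ (2 ^ a * m)) : y ^ 2 ^ a = x ^ 2 ^ a := by
  have hone : (1 : integralClosure ℤ ℂ) ∉ M := fun h => hM.ne_top ((Ideal.eq_top_iff_one M).2 h)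
  have hpow : ∀ (w : integralClosure ℤ ℂ) (j : ℕ), 1 - w ∈ M → 1 - w ^ j ∈ M := by
    intro w j hw
    have h1 : 1 - w ^ j = (∑ i ∈ Finset.range j, w ^ i) * (1 - w) := by
      rw [geom_sum_mul_neg]
    rw [h1]
    exact M.mul_mem_left _ hw
  have hm0 : 0 < m := hm.pos
  have hpos : 2 ^ a * m ≠ 0 := by positivity
  have hy1 : 1 - y ∈ M := by
    rcases mod_root M hM h2 P e f hP y hy with h | h
    · exfalso
      have h3 : y ^ (2 ^ a * m) ∈ M := Ideal.pow_mem_of_mem M h _ (Nat.pos_of_ne_zero hpos)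
      rw [hxy] at h3
      have h4 := hpow x (2 ^ a * m) hx
      apply hone
      have h5 := M.add_mem h4 h3
      rwa [sub_add_cancel] at h5
    · exact h
  have hs := geom_mem M (y ^ 2 ^ a) (x ^ 2 ^ a) (hpow _ _ hy1) (hpow _ _ hx) m
  have hmul := (Commute.all (y ^ 2 ^ a) (x ^ 2 ^ a)).geom_sum₂_mul m
  rw [← pow_mul, ← pow_mul, hxy, sub_self] at hmul
  rcases mul_eq_zero.1 hmul with h | h
  · exfalso
    rw [h, sub_zero] at hs
    obtain ⟨b, hb⟩ := hm
    rw [hb] at hs
    push_cast at hs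
    apply hone
    have h5 := M.sub_mem hs (M.mul_mem_right (b : integralClosure ℤ ℂ) h2)
    rwa [add_sub_cancel_left] at h5
  · exact sub_eq_zero.1 h

theorem key (P : ℤ[X]) (e f : ℕ) (hf : 1 ≤ f) (hPm : P.Monic)
    (hP : P.map (Int.castRingHom (ZMod 2)) = X ^ e * (X + 1) ^ f)
    (hirr : Irreducible (P.map (Int.castRingHom ℚ))) (x y : ℂ) (hx : aeval x P = 0)
    (hy : aeval y P = 0) (a m : ℕ) (hm : Odd m) (hxy : y ^ (2 ^ a * m) = x ^ (2 ^ a * m)) :
    y ^ 2 ^ a = x ^ 2 ^ a := by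
  obtain ⟨M, hM', h2⟩ := exists_max
  have hM : M.IsPrime := hM'.isPrime
  have hev : ((P.eval 1 : ℤ) : integralClosure ℤ ℂ) ∈ M := by
    have h3 : ((P.eval 1 : ℤ) : ZMod 2) = 0 := by
      have h4 := congrArg (eval 1) hP
      rw [eval_mul, eval_pow, eval_pow, eval_add, eval_X, eval_one] at h4
      have h5 : (1 + 1 : ZMod 2) = 0 := by decide
      rw [h5, zero_pow (by omega), mul_zero] at h4
      have h6 := eval_intCast_map (Int.castRingHom (ZMod 2)) P 1
      rw [Int.cast_one, h4] at h6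
      exact h6.symm
    obtain ⟨c, hc⟩ := (ZMod.intCast_zmod_eq_zero_iff_dvd (P.eval 1) 2).1 h3
    rw [hc]
    push_cast
    exact M.mul_mem_right _ h2
  obtain ⟨w, hw, hw1⟩ := exists_root_one M hM P hPm hev
  have hxi : IsIntegral ℚ x := by
    have : IsIntegral ℤ x := ⟨P, hPm, hx⟩
    exact this.tower_top
  have hyi : IsIntegral ℚ y := by
    have : IsIntegral ℤ y := ⟨P, hPm, hy⟩
    exact this.tower_top
  let K := IntermediateField.adjoin ℚ {x, y}
  have hK : Algebra.IsAlgebraic ℚ K := by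
    refine IntermediateField.isAlgebraic_adjoin ?_
    intro z hz
    rcases hz with rfl | rfl
    · exact hxi
    · exact hyi
  have hxK : x ∈ K := IntermediateField.subset_adjoin ℚ _ (by simp)
  have hyK : y ∈ K := IntermediateField.subset_adjoin ℚ _ (by simp)
  let X' : K := ⟨x, hxK⟩
  let Y' : K := ⟨y, hyK⟩
  have hPQ : P.map (Int.castRingHom ℚ) = minpoly ℚ x := by
    refine minpoly.eq_of_irreducible_of_monic hirr ?_ (hPm.map _)
    have := aeval_map_algebraMap (A := ℚ) (R := ℤ) x P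
    rw [hx] at this
    exact this
  have hmin : minpoly ℚ X' = minpoly ℚ x :=
    (minpoly.algebraMap_eq (algebraMap K ℂ).injective X').symm
  have hr := Algebra.IsAlgebraic.range_eval_eq_rootSet_minpoly (F := ℚ) ℂ X'
  have hmem : (w : ℂ) ∈ (minpoly ℚ X').rootSet ℂ := by
    rw [mem_rootSet, hmin, ← hPQ]
    refine ⟨hirr.ne_zero, ?_⟩
    have := aeval_map_algebraMap (A := ℚ) (R := ℤ) (w : ℂ) P
    rw [hw] at this
    exact this
  rw [← hr] at hmem
  obtain ⟨ψ, hψ⟩ := hmem
  have hyP : aeval (ψ Y') P = 0 := by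
    have h3 : aeval (ψ Y') (P.map (Int.castRingHom ℚ)) = ψ (aeval Y' (P.map (Int.castRingHom ℚ))) :=
      aeval_algHom_apply ψ Y' _
    have h4 : aeval Y' (P.map (Int.castRingHom ℚ)) = 0 := by
      apply (algebraMap K ℂ).injective
      rw [← aeval_algebraMap_apply, map_zero]
      have := aeval_map_algebraMap (A := ℚ) (R := ℤ) y P
      rw [hy] at this
      exact this
    rw [h4, map_zero] at h3
    have := aeval_map_algebraMap (A := ℚ) (R := ℤ) (ψ Y') P
    rw [← this]
    exact h3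
  let v : integralClosure ℤ ℂ := ⟨ψ Y', ⟨P, hPm, hyP⟩⟩
  have hXY : Y' ^ (2 ^ a * m) = X' ^ (2 ^ a * m) := Subtype.ext hxy
  have h3 := congrArg ψ hXY
  rw [map_pow, map_pow] at h3
  have h4 := key1 M hM h2 P e f hP w v hw1 hyP a m hm (by
    apply Subtype.ext
    show (ψ Y') ^ (2 ^ a * m) = (w : ℂ) ^ (2 ^ a * m)
    rw [h3]
    congr 1)
  have h5 : ψ (Y' ^ 2 ^ a) = ψ (X' ^ 2 ^ a) := by
    rw [map_pow, map_pow]
    have h6 := congrArg (fun z : integralClosure ℤ ℂ => (z : ℂ)) h4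
    have h7 : (ψ Y') ^ 2 ^ a = (w : ℂ) ^ 2 ^ a := h6
    rw [h7]
    congr 1
    exact hψ.symm
  have h6 : Y' ^ 2 ^ a = X' ^ 2 ^ a := ψ.toRingHom.injective h5
  exact congrArg (fun z : K => (z : ℂ)) h6

/-- WT/4: no power of a root generates a smaller field -/
theorem nd2 : Pool.Agent.N205.WT.S_ND := by
  intro P N f hf hfN hPm hdeg hmod hirr x hx hI hneg n hn
  have hx0 : x ≠ 0 := by
    rintro rfl
    rw [neg_zero] at hneg
    exact hneg hx
  have hxi : IsIntegral ℤ x := ⟨P, hPm, hx⟩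
  obtain ⟨a, m, hm, hnam⟩ : ∃ a m : ℕ, Odd m ∧ n = 2 ^ a * m := by
    obtain ⟨a, m, hm, h⟩ := Nat.exists_eq_two_pow_mul_odd (n := n) (by omega)
    exact ⟨a, m, hm, h⟩
  apply le_antisymm
  · rw [IntermediateField.adjoin_simple_le_iff]
    exact pow_mem (IntermediateField.mem_adjoin_simple_self ℚ x) _
  · set L := IntermediateField.adjoin ℚ {x ^ n} with hL
    have hxiL : IsIntegral L x := hxi.tower_top
    have hxnL : x ^ n ∈ L := IntermediateField.mem_adjoin_simple_self ℚ (x ^ n)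
    have h1 : x ^ 2 ^ a ∈ L := by
      refine step2 L x hxiL _ fun y hy => ?_
      have hyP : aeval y P = 0 := by
        have hd : minpoly L x ∣ P.map (algebraMap ℤ L) := by
          refine minpoly.dvd _ _ ?_
          rw [aeval_map_algebraMap]; exact hx
        obtain ⟨q, hq⟩ := hd
        have h2 := congrArg (aeval y) hq
        rw [map_mul, hy, zero_mul, aeval_map_algebraMap] at h2
        exact h2
      have hyn : y ^ n = x ^ n := by
        have hd : minpoly L x ∣ X ^ n - C (⟨x ^ n, hxnL⟩ : L) := by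
          refine minpoly.dvd _ _ ?_
          simp
        obtain ⟨q, hq⟩ := hd
        have h2 := congrArg (aeval y) hq
        rw [map_mul, hy, zero_mul] at h2
        simp only [map_sub, map_pow, aeval_X, aeval_C] at h2
        have h3 : (algebraMap L ℂ) (⟨x ^ n, hxnL⟩ : L) = x ^ n := rfl
        rw [h3, sub_eq_zero] at h2
        exact h2
      rw [hnam] at hyn
      exact key P (N - f) f hf hPm hmod hirr x y hx hyP a m hm hyn
    have h2 := step3 hx hPm hI hx0 hneg a
    have h3 : IntermediateField.adjoin ℚ {x ^ 2 ^ a} ≤ L := by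
      rw [IntermediateField.adjoin_simple_le_iff]; exact h1
    rw [IntermediateField.adjoin_simple_le_iff]
    exact h3 h2

end Pool.Agent.N592.WT
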