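import Pool.Agent.N993.WT.Stm

set_option autoImplicit false

/-!
# Project WT (helper993), leaf NORM by helper592: internal form of a reduced spherical diagram
-/

namespace Pool.Agent.N592.WTN

open Pool.Agent.N993.WT

section types

variable {m : ℕ}

/-- the type of the side number `p` of the cell `e` read in direction `τ` -/
def tyOf (c : Fin m → ℕ) (ℓ : ((j : Fin m) × Fin (c j)) → ℕ) :
    Fin m ⊕ ((j : Fin m) × Fin (c j)) → Bool → ℕ → Side (Fin m) ((j : Fin m) × Fin (c j))
  | Sum.inl j, τ, 0 => .base j τ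
  | Sum.inl j, true, q + 1 => if q % 3 = 0 then .up j true (q / 3) else
      if q % 3 = 1 then .mid j true (q / 3) else .dn j true (q / 3)
  | Sum.inl j, false, q + 1 => if q % 3 = 0 then .dn j false (c j - 1 - q / 3) else
      if q % 3 = 1 then .mid j false (c j - 1 - q / 3) else .up j false (c j - 1 - q / 3)
  | Sum.inr s, τ, 0 => .st s τ
  | Sum.inr s, true, i + 1 => .lt s true i
  | Sum.inr s, false, i + 1 => .lt s false (ℓ s - 1 - i)

/-- the lengths -/
def len (c : Fin m → ℕ) (ℓ : ((j : Fin m) × Fin (c j)) → ℕ) :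
    Fin m ⊕ ((j : Fin m) × Fin (c j)) → ℕ
  | Sum.inl j => 3 * c j + 1
  | Sum.inr s => ℓ s + 1

/-- left inverse -/
def inv (c : Fin m → ℕ) (ℓ : ((j : Fin m) × Fin (c j)) → ℕ) :
    Side (Fin m) ((j : Fin m) × Fin (c j)) → (Fin m ⊕ ((j : Fin m) × Fin (c j))) × Bool × ℕ
  | .base j τ => (Sum.inl j, τ, 0)
  | .up j true k => (Sum.inl j, true, 3 * k + 1)
  | .up j false k => (Sum.inl j, false, 3 * (c j - 1 - k) + 3)
  | .mid j true k => (Sum.inl j, true, 3 * k + 2)
  | .mid j false k => (Sum.inl j, false, 3 * (c j - 1 - k) + 2)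
  | .dn j true k => (Sum.inl j, true, 3 * k + 3)
  | .dn j false k => (Sum.inl j, false, 3 * (c j - 1 - k) + 1)
  | .st s τ => (Sum.inr s, τ, 0)
  | .lt s true i => (Sum.inr s, true, i + 1)
  | .lt s false i => (Sum.inr s, false, (ℓ s - 1 - i) + 1)

variable (c : Fin m → ℕ) (ℓ : ((j : Fin m) × Fin (c j)) → ℕ)

theorem ty0 (j : Fin m) (τ : Bool) : tyOf c ℓ (Sum.inl j) τ 0 = .base j τ := by
  cases τ <;> rfl

theorem tyT1 (j : Fin m) (k : ℕ) : tyOf c ℓ (Sum.inl j) true (3 * k + 1) = .up j true k := by
  show (if (3 * k) % 3 = 0 then _ else _) = _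
  rw [if_pos (by omega), show 3 * k / 3 = k by omega]

theorem tyT2 (j : Fin m) (k : ℕ) : tyOf c ℓ (Sum.inl j) true (3 * k + 2) = .mid j true k := by
  show (if (3 * k + 1) % 3 = 0 then _ else if (3 * k + 1) % 3 = 1 then _ else _) = _
  rw [if_neg (by omega), if_pos (by omega), show (3 * k + 1) / 3 = k by omega]

theorem tyT3 (j : Fin m) (k : ℕ) : tyOf c ℓ (Sum.inl j) true (3 * k + 3) = .dn j true k := by
  show (if (3 * k + 2) % 3 = 0 then _ else if (3 * k + 2) % 3 = 1 then _ else _) = _
  rw [if_neg (by omega), if_neg (by omega), show (3 * k + 2) / 3 = k by omega]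

theorem tyF1 (j : Fin m) (k : ℕ) :
    tyOf c ℓ (Sum.inl j) false (3 * k + 1) = .dn j false (c j - 1 - k) := by
  show (if (3 * k) % 3 = 0 then _ else _) = _
  rw [if_pos (by omega), show 3 * k / 3 = k by omega]

theorem tyF2 (j : Fin m) (k : ℕ) :
    tyOf c ℓ (Sum.inl j) false (3 * k + 2) = .mid j false (c j - 1 - k) := by
  show (if (3 * k + 1) % 3 = 0 then _ else if (3 * k + 1) % 3 = 1 then _ else _) = _
  rw [if_neg (by omega), if_pos (by omega), show (3 * k + 1) / 3 = k by omega]

theorem tyF3 (j : Fin m) (k : ℕ) :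
    tyOf c ℓ (Sum.inl j) false (3 * k + 3) = .up j false (c j - 1 - k) := by
  show (if (3 * k + 2) % 3 = 0 then _ else if (3 * k + 2) % 3 = 1 then _ else _) = _
  rw [if_neg (by omega), if_neg (by omega), show (3 * k + 2) / 3 = k by omega]

theorem tyS (s : (j : Fin m) × Fin (c j)) (τ : Bool) : tyOf c ℓ (Sum.inr s) τ 0 = .st s τ := by
  cases τ <;> rfl

theorem pos_cases (p : ℕ) : p = 0 ∨ ∃ k, p = 3 * k + 1 ∨ p = 3 * k + 2 ∨ p = 3 * k + 3 := by
  rcases Nat.eq_zero_or_pos p with h | h
  · exact Or.inl h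
  · exact Or.inr ⟨(p - 1) / 3, by omega⟩

theorem inv_tyOf (e : Fin m ⊕ ((j : Fin m) × Fin (c j))) (τ : Bool) (p : ℕ)
    (hp : p < len c ℓ e) : inv c ℓ (tyOf c ℓ e τ p) = (e, τ, p) := by
  rcases e with j | s
  · have hp' : p < 3 * c j + 1 := hp
    rcases pos_cases p with rfl | ⟨k, rfl | rfl | rfl⟩
    · rw [ty0]
      rfl
    · cases τ
      · rw [tyF1]
        show ((Sum.inl j, false, 3 * (c j - 1 - (c j - 1 - k)) + 1) : _ × Bool × ℕ) = _
        rw [show c j - 1 - (c j - 1 - k) = k by omega]
      · rw [tyT1]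
        rfl
    · cases τ
      · rw [tyF2]
        show ((Sum.inl j, false, 3 * (c j - 1 - (c j - 1 - k)) + 2) : _ × Bool × ℕ) = _
        rw [show c j - 1 - (c j - 1 - k) = k by omega]
      · rw [tyT2]
        rfl
    · cases τ
      · rw [tyF3]
        show ((Sum.inl j, false, 3 * (c j - 1 - (c j - 1 - k)) + 3) : _ × Bool × ℕ) = _
        rw [show c j - 1 - (c j - 1 - k) = k by omega]
      · rw [tyT3]
        rfl
  · have hp' : p < ℓ s + 1 := hp
    rcases p with _ | i
    · rw [tyS]
      rfl
    · cases τ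
      · show ((Sum.inr s, false, (ℓ s - 1 - (ℓ s - 1 - i)) + 1) : _ × Bool × ℕ) = _
        rw [show ℓ s - 1 - (ℓ s - 1 - i) = i by omega]
      · rfl

section dat

variable {V : Type} (A : Dat V (Fin m) ((j : Fin m) × Fin (c j))) (hAc : A.c = c) (hAl : A.ℓ = ℓ)

include hAc hAl

theorem mirror_tyOf (e : Fin m ⊕ ((j : Fin m) × Fin (c j))) (τ : Bool) (p : ℕ)
    (hp : p < len c ℓ e) : A.mirror (tyOf c ℓ e τ p) = tyOf c ℓ e (!τ) p := by
  rcases e with j | s
  · have hp' : p < 3 * c j + 1 := hp
    rcases pos_cases p with rfl | ⟨k, rfl | rfl | rfl⟩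
    · rw [ty0, ty0]
      rfl
    · cases τ
      · rw [tyF1]
        show Side.up j true (A.c j - 1 - (c j - 1 - k)) = tyOf c ℓ (Sum.inl j) true (3 * k + 1)
        rw [tyT1, hAc, show c j - 1 - (c j - 1 - k) = k by omega]
      · rw [tyT1]
        show Side.dn j false (A.c j - 1 - k) = tyOf c ℓ (Sum.inl j) false (3 * k + 1)
        rw [tyF1, hAc]
    · cases τ
      · rw [tyF2]
        show Side.mid j true (A.c j - 1 - (c j - 1 - k)) = tyOf c ℓ (Sum.inl j) true (3 * k + 2)
        rw [tyT2, hAc, show c j - 1 - (c j - 1 - k) = k by omega]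
      · rw [tyT2]
        show Side.mid j false (A.c j - 1 - k) = tyOf c ℓ (Sum.inl j) false (3 * k + 2)
        rw [tyF2, hAc]
    · cases τ
      · rw [tyF3]
        show Side.dn j true (A.c j - 1 - (c j - 1 - k)) = tyOf c ℓ (Sum.inl j) true (3 * k + 3)
        rw [tyT3, hAc, show c j - 1 - (c j - 1 - k) = k by omega]
      · rw [tyT3]
        show Side.up j false (A.c j - 1 - k) = tyOf c ℓ (Sum.inl j) false (3 * k + 3)
        rw [tyF3, hAc]
  · have hp' : p < ℓ s + 1 := hp
    rcases p with _ | i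
    · rw [tyS, tyS]
      rfl
    · cases τ
      · show Side.lt s true (A.ℓ s - 1 - (ℓ s - 1 - i)) = Side.lt s true i
        rw [hAl, show ℓ s - 1 - (ℓ s - 1 - i) = i by omega]
      · show Side.lt s false (A.ℓ s - 1 - i) = Side.lt s false (ℓ s - 1 - i)
        rw [hAl]

theorem valid_tyOf (e : Fin m ⊕ ((j : Fin m) × Fin (c j))) (τ : Bool) (p : ℕ)
    (hp : p < len c ℓ e) : A.Valid (tyOf c ℓ e τ p) := by
  have hAc' : ∀ j, A.c j = c j := fun j => congrFun hAc j
  have hAl' : ∀ s, A.ℓ s = ℓ s := fun s => congrFun hAl s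
  rcases e with j | s
  · have hp' : p < 3 * c j + 1 := hp
    rcases pos_cases p with rfl | ⟨k, rfl | rfl | rfl⟩
    · rw [ty0]
      trivial
    · cases τ
      · rw [tyF1]
        show c j - 1 - k < A.c j
        rw [hAc']
        omega
      · rw [tyT1]
        show k < A.c j
        rw [hAc']
        omega
    · cases τ
      · rw [tyF2]
        show c j - 1 - k < A.c j
        rw [hAc']
        omega
      · rw [tyT2]
        show k < A.c j
        rw [hAc']
        omega
    · cases τ
      · rw [tyF3]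
        show c j - 1 - k < A.c j
        rw [hAc']
        omega
      · rw [tyT3]
        show k < A.c j
        rw [hAc']
        omega
  · have hp' : p < ℓ s + 1 := hp
    rcases p with _ | i
    · rw [tyS]
      trivial
    · cases τ
      · show ℓ s - 1 - i < A.ℓ s
        rw [hAl']
        omega
      · show i < A.ℓ s
        rw [hAl']
        omega

theorem nx_tyOf (hc : ∀ j, 0 < c j) (hl : ∀ t, 0 < ℓ t) (e : Fin m ⊕ ((j : Fin m) × Fin (c j)))
    (τ : Bool) (p : ℕ) (hp : p < len c ℓ e) :
    A.nx (tyOf c ℓ e τ p) = tyOf c ℓ e τ (if τ then (if p + 1 = len c ℓ e then 0 else p + 1)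
      else (if p = 0 then len c ℓ e - 1 else p - 1)) := by
  have hAc' : ∀ j, A.c j = c j := fun j => congrFun hAc j
  have hAl' : ∀ s, A.ℓ s = ℓ s := fun s => congrFun hAl s
  rcases e with j | s
  · have hcj := hc j
    have hp' : p < 3 * c j + 1 := hp
    have hlen : len c ℓ (Sum.inl j) = 3 * c j + 1 := rfl
    rw [hlen]
    cases τ
    · rw [if_neg Bool.false_ne_true]
      rcases pos_cases p with rfl | ⟨k, rfl | rfl | rfl⟩
      · rw [ty0, if_pos rfl, show 3 * c j + 1 - 1 = 3 * (c j - 1) + 3 by omega, tyF3]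
        show Side.up j false 0 = _
        rw [Nat.sub_self]
      · rw [tyF1, if_neg (by omega)]
        show (if c j - 1 - k + 1 < A.c j then Side.up j false (c j - 1 - k + 1)
          else Side.base j false) = _
        rw [hAc']
        rcases k with _ | k
        · rw [if_neg (by omega)]
          rfl
        · rw [if_pos (by omega), show 3 * (k + 1) + 1 - 1 = 3 * k + 3 by omega, tyF3,
            show c j - 1 - (k + 1) + 1 = c j - 1 - k by omega]
      · rw [tyF2, if_neg (by omega), show 3 * k + 2 - 1 = 3 * k + 1 by omega, tyF1]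
        rfl
      · rw [tyF3, if_neg (by omega), show 3 * k + 3 - 1 = 3 * k + 2 by omega, tyF2]
        rfl
    · rw [if_pos rfl]
      rcases pos_cases p with rfl | ⟨k, rfl | rfl | rfl⟩
      · rw [ty0, if_neg (by omega), show 0 + 1 = 3 * 0 + 1 by omega, tyT1]
        rfl
      · rw [tyT1, if_neg (by omega), tyT2]
        rfl
      · rw [tyT2, if_neg (by omega), tyT3]
        rfl
      · rw [tyT3]
        show (if k + 1 < A.c j then Side.up j true (k + 1) else Side.base j true) = _
        rw [hAc']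
        by_cases h : k + 1 < c j
        · rw [if_pos h, if_neg (by omega), show 3 * k + 3 + 1 = 3 * (k + 1) + 1 by omega, tyT1]
        · rw [if_neg h, if_pos (by omega), ty0]
  · have hls := hl s
    have hp' : p < ℓ s + 1 := hp
    have hlen : len c ℓ (Sum.inr s) = ℓ s + 1 := rfl
    rw [hlen]
    cases τ
    · rw [if_neg Bool.false_ne_true]
      rcases p with _ | i
      · rw [tyS, if_pos rfl, show ℓ s + 1 - 1 = (ℓ s - 1) + 1 by omega]
        show Side.lt s false 0 = Side.lt s false (ℓ s - 1 - (ℓ s - 1))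
        rw [Nat.sub_self]
      · rw [if_neg (by omega)]
        show (if ℓ s - 1 - i + 1 < A.ℓ s then Side.lt s false (ℓ s - 1 - i + 1)
          else Side.st s false) = tyOf c ℓ (Sum.inr s) false i
        rw [hAl']
        rcases i with _ | i
        · rw [if_neg (by omega)]
          rfl
        · rw [if_pos (by omega), show ℓ s - 1 - (i + 1) + 1 = ℓ s - 1 - i by omega]
          rfl
    · rw [if_pos rfl]
      rcases p with _ | i
      · rw [tyS, if_neg (by omega)]
        rfl
      · show (if i + 1 < A.ℓ s then Side.lt s true (i + 1) else Side.st s true) = _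
        rw [hAl']
        by_cases h : i + 1 < ℓ s
        · rw [if_pos h, if_neg (by omega)]
          rfl
        · rw [if_neg h, if_pos (by omega)]
          rfl

end dat

end types

/-! ### the relators -/

theorem tri {α : Type} : ∀ (N : ℕ) (F : Fin N → List α) (_ : ∀ k, (F k).length = 3) (k : ℕ)
    (hk : k < N) (r : ℕ) (_ : r < 3), (List.ofFn F).flatten[3 * k + r]? = (F ⟨k, hk⟩)[r]?
  | 0, _, _, k, hk, _, _ => absurd hk (Nat.not_lt_zero k)
  | N + 1, F, hF, k, hk, r, hr => by
    rw [List.ofFn_succ, List.flatten_cons]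
    rcases k with _ | k
    · rw [List.getElem?_append_left (by rw [hF]; omega)]
      congr 1
      omega
    · rw [List.getElem?_append_right (by rw [hF]; omega), hF,
        show 3 * (k + 1) + r - 3 = 3 * k + r by omega]
      exact tri N (fun i => F i.succ) (fun i => hF i.succ) k (Nat.lt_of_succ_lt_succ hk) r hr

theorem tri_len {α : Type} : ∀ (N : ℕ) (F : Fin N → List α) (_ : ∀ k, (F k).length = 3),
    (List.ofFn F).flatten.length = 3 * N
  | 0, _, _ => by simp
  | N + 1, F, hF => by
    rw [List.ofFn_succ, List.flatten_cons, List.length_append, hF,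
      tri_len N (fun i => F i.succ) (fun i => hF i.succ)]
    omega

section rels

variable {n m : ℕ} {c : Fin m → ℕ} (b : Fin m → Fin n × Bool)
  (a : ((j : Fin m) × Fin (c j)) → Fin n × Bool)
  {ℓ : ((j : Fin m) × Fin (c j)) → ℕ} (g : ∀ t, RW n (ℓ t))

theorem rel_len (e : Fin m ⊕ ((j : Fin m) × Fin (c j))) : (rel b a g e).length = len c ℓ e := by
  rcases e with j | s
  · show (List.flatten (List.ofFn _)).length + 1 = 3 * c j + 1
    rw [tri_len _ _ (fun k => rfl)]
  · show (List.ofFn _).length + 1 = ℓ s + 1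
    rw [List.length_ofFn]

theorem rel_tri (j : Fin m) (k : ℕ) (hk : k < c j) (r : ℕ) (hr : r < 3) :
    (rel b a g (Sum.inl j))[3 * k + r + 1]? = ([(Sum.inr ⟨j, ⟨k, hk⟩⟩, true),
      (Sum.inl (a ⟨j, ⟨k, hk⟩⟩).1, (a ⟨j, ⟨k, hk⟩⟩).2), (Sum.inr ⟨j, ⟨k, hk⟩⟩, false)] :
        List (Gen n c × Bool))[r]? := by
  show (_ :: (List.ofFn fun k : Fin (c j) => ([(Sum.inr ⟨j, k⟩, true),
    (Sum.inl (a ⟨j, k⟩).1, (a ⟨j, k⟩).2), (Sum.inr ⟨j, k⟩, false)] :
      List (Gen n c × Bool))).flatten)[3 * k + r + 1]? = _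
  rw [List.getElem?_cons_succ]
  exact tri (c j) _ (fun k => rfl) k hk r hr

theorem letter_tyOf (hc : ∀ j, 0 < c j) (e : Fin m ⊕ ((j : Fin m) × Fin (c j))) (τ : Bool)
    (p : ℕ) (y : Gen n c × Bool) (hy : (rel b a g e)[p]? = some y) :
    (dat hc b a g).letter (tyOf c ℓ e τ p) = if τ then y else flip y := by
  have hp : p < len c ℓ e := by
    rw [← rel_len b a g e]
    exact (List.getElem?_eq_some_iff.1 hy).1
  have hb1 : ∀ β : Bool, (β == true) = β := by decide
  have hb2 : ∀ β : Bool, (β == false) = !β := by decide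
  rcases e with j | s
  · have hp' : p < 3 * c j + 1 := hp
    have hst : ∀ (k : ℕ) (hk : k < c j), (dat hc b a g).st j k = ⟨j, ⟨k, hk⟩⟩ := by
      intro k hk
      show (⟨j, ⟨k % c j, _⟩⟩ : (j : Fin m) × Fin (c j)) = ⟨j, ⟨k, hk⟩⟩
      congr 2
      exact Nat.mod_eq_of_lt hk
    have hkT : ∀ (k : ℕ) (hk : k < c j), (dat hc b a g).kap j true k = ⟨j, ⟨k, hk⟩⟩ := by
      intro k hk
      show (dat hc b a g).st j k = _
      exact hst k hk
    have hkF : ∀ (k : ℕ) (hk : k < c j),
        (dat hc b a g).kap j false (c j - 1 - k) = ⟨j, ⟨k, hk⟩⟩ := by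
      intro k hk
      show (dat hc b a g).st j (c j - 1 - (c j - 1 - k)) = _
      rw [show c j - 1 - (c j - 1 - k) = k by omega]
      exact hst k hk
    rcases pos_cases p with rfl | ⟨k, hk⟩
    · have hy' : y = (Sum.inl (b j).1, (b j).2) := (Option.some.inj hy).symm
      rw [ty0]
      show ((Sum.inl (b j).1, (b j).2 == τ) : Gen n c × Bool) = _
      rw [hy']
      cases τ
      · rw [hb2]
        rfl
      · rw [hb1]
        rfl
    · have hkc : k < c j := by omega
      rcases hk with rfl | rfl | rfl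
      · have hy' : y = (Sum.inr ⟨j, ⟨k, hkc⟩⟩, true) := by
          have h := rel_tri b a g j k hkc 0 (by omega)
          exact Option.some.inj (hy.symm.trans h)
        cases τ
        · rw [tyF1]
          show ((Sum.inr ((dat hc b a g).kap j false (c j - 1 - k)), false) : Gen n c × Bool) = _
          rw [hkF k hkc, hy']
          rfl
        · rw [tyT1]
          show ((Sum.inr ((dat hc b a g).kap j true k), true) : Gen n c × Bool) = _
          rw [hkT k hkc, hy']
          rfl
      · have hy' : y = (Sum.inl (a ⟨j, ⟨k, hkc⟩⟩).1, (a ⟨j, ⟨k, hkc⟩⟩).2) := by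
          have h := rel_tri b a g j k hkc 1 (by omega)
          exact Option.some.inj (hy.symm.trans h)
        cases τ
        · rw [tyF2]
          show ((Sum.inl (a ((dat hc b a g).kap j false (c j - 1 - k))).1,
            (a ((dat hc b a g).kap j false (c j - 1 - k))).2 == false) : Gen n c × Bool) = _
          rw [hkF k hkc, hy', hb2]
          rfl
        · rw [tyT2]
          show ((Sum.inl (a ((dat hc b a g).kap j true k)).1,
            (a ((dat hc b a g).kap j true k)).2 == true) : Gen n c × Bool) = _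
          rw [hkT k hkc, hy', hb1]
          rfl
      · have hy' : y = (Sum.inr ⟨j, ⟨k, hkc⟩⟩, false) := by
          have h := rel_tri b a g j k hkc 2 (by omega)
          exact Option.some.inj (hy.symm.trans h)
        cases τ
        · rw [tyF3]
          show ((Sum.inr ((dat hc b a g).kap j false (c j - 1 - k)), true) : Gen n c × Bool) = _
          rw [hkF k hkc, hy']
          rfl
        · rw [tyT3]
          show ((Sum.inr ((dat hc b a g).kap j true k), false) : Gen n c × Bool) = _
          rw [hkT k hkc, hy']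
          rfl
  · have hp' : p < ℓ s + 1 := hp
    rcases p with _ | i
    · have hy' : y = (Sum.inr s, false) := (Option.some.inj hy).symm
      rw [tyS, hy']
      cases τ <;> rfl
    · have hi : i < ℓ s := by omega
      have hy' : y = (Sum.inl ((g s).1 ⟨i, hi⟩).1, ((g s).1 ⟨i, hi⟩).2) := by
        have h : (rel b a g (Sum.inr s))[i + 1]? =
            some (Sum.inl ((g s).1 ⟨i, hi⟩).1, ((g s).1 ⟨i, hi⟩).2) := by
          show (_ :: List.ofFn (fun i => ((Sum.inl ((g s).1 i).1, ((g s).1 i).2) :
            Gen n c × Bool)))[i + 1]? = _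
          rw [List.getElem?_cons_succ, List.getElem?_ofFn, dif_pos hi]
        exact Option.some.inj (hy.symm.trans h)
      have hg : (dat hc b a g).g s i = (g s).1 ⟨i, hi⟩ := dif_pos hi
      cases τ
      · show ((Sum.inl (flip ((dat hc b a g).g s (ℓ s - 1 - (ℓ s - 1 - i)))).1,
          (flip ((dat hc b a g).g s (ℓ s - 1 - (ℓ s - 1 - i)))).2) : Gen n c × Bool) = _
        rw [show ℓ s - 1 - (ℓ s - 1 - i) = i by omega, hg, hy']
        rfl
      · show ((Sum.inl ((dat hc b a g).g s i).1, ((dat hc b a g).g s i).2) : Gen n c × Bool) = _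
        rw [hg, hy']
        rfl

end rels

/-! ### counting orbits -/

theorem card_opp {D : Type} [Finite D] (opp : D → D) (h : ∀ d, opp (opp d) = d) :
    Nat.card D ≤ 2 * Nat.card (Quot fun x y : D => y = opp x) := by
  classical
  have hq : ∀ d d' : D, Quot.mk (fun x y : D => y = opp x) d = Quot.mk _ d' →
      d' = d ∨ d' = opp d := by
    intro d d' e
    have h1 : ∀ x y : D, y = opp x → ({x, opp x} : Set D) = {y, opp y} := by
      intro x y hy
      rw [hy, h, Set.pair_comm]
    have h2 : ({d, opp d} : Set D) = {d', opp d'} :=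
      congrArg (Quot.lift (fun x => ({x, opp x} : Set D)) h1) e
    have h3 : d' ∈ ({d, opp d} : Set D) := by
      rw [h2]
      exact Or.inl rfl
    exact h3
  have hfin : Finite (Quot fun x y : D => y = opp x) :=
    Finite.of_surjective (Quot.mk _) Quot.mk_surjective
  have h1 : Nat.card D ≤ Nat.card ((Quot fun x y : D => y = opp x) × Bool) := by
    refine Nat.card_le_card_of_injective
      (fun d => (Quot.mk _ d, decide (d = (Quot.mk (fun x y : D => y = opp x) d).out))) ?_
    intro d d' e
    have e1 : Quot.mk (fun x y : D => y = opp x) d = Quot.mk _ d' := congrArg Prod.fst e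
    have e2 : decide (d = (Quot.mk (fun x y : D => y = opp x) d).out) =
      decide (d' = (Quot.mk (fun x y : D => y = opp x) d').out) := congrArg Prod.snd e
    rw [← e1] at e2
    have h0 := hq d _ (Quot.out_eq (Quot.mk (fun x y : D => y = opp x) d)).symm
    have h0' := hq d' _ ((Quot.out_eq (Quot.mk (fun x y : D => y = opp x) d')).symm)
    rw [← e1] at h0'
    by_cases h3 : d = (Quot.mk (fun x y : D => y = opp x) d).out
    · rw [decide_eq_true h3] at e2
      have h4 := of_decide_eq_true e2.symm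
      rw [h3, ← h4]
    · rw [decide_eq_false h3] at e2
      have h4 := of_decide_eq_false e2.symm
      have h5 : (Quot.mk (fun x y : D => y = opp x) d).out = opp d := by
        rcases h0 with h0 | h0
        · exact absurd h0.symm h3
        · exact h0
      have h6 : (Quot.mk (fun x y : D => y = opp x) d).out = opp d' := by
        rcases h0' with h0' | h0'
        · exact absurd h0'.symm h4
        · exact h0'
      have h7 : opp d = opp d' := h5.symm.trans h6
      rw [← h d, h7, h]
  rw [Nat.card_prod] at h1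
  have h2 : Nat.card Bool = 2 := by simp
  rw [h2] at h1
  omega

theorem card_vtx {D : Type} [Finite D] (σ : Equiv.Perm D) :
    Nat.card (Quot fun x y : D => y = σ x) ≤
      Nat.card (Quotient (Equiv.Perm.SameCycle.setoid σ)) := by
  have hfin : Finite (Quotient (Equiv.Perm.SameCycle.setoid σ)) :=
    Finite.of_surjective (Quotient.mk _) Quotient.mk_surjective
  have h1 : ∀ z : D, Quot.mk (fun x y : D => y = σ x) (σ z) = Quot.mk _ z := fun z =>
    (Quot.sound (r := fun x y : D => y = σ x) (a := z) (b := σ z) rfl).symm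
  have h2 : ∀ (i : ℤ) (x : D), Quot.mk (fun x y : D => y = σ x) ((σ ^ i) x) = Quot.mk _ x := by
    intro i
    induction i using Int.induction_on with
    | zero => intro x; rfl
    | succ i ih =>
      intro x
      have h3 : (σ ^ ((i : ℤ) + 1)) x = σ ((σ ^ (i : ℤ)) x) := by
        rw [add_comm, zpow_add, zpow_one]
        rfl
      rw [h3, h1, ih]
    | pred i ih =>
      intro x
      have h3 : σ ((σ ^ (-(i : ℤ) - 1)) x) = (σ ^ (-(i : ℤ))) x := by
        have h4 : σ ^ (-(i : ℤ)) = σ * σ ^ (-(i : ℤ) - 1) := by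
          rw [← zpow_one_add]
          congr 1
          ring
        rw [h4]
        rfl
      rw [← h1, h3, ih]
  refine Nat.card_le_card_of_surjective (Quotient.lift (fun x => Quot.mk _ x) ?_) ?_
  · rintro x y ⟨i, hi⟩
    rw [← hi, h2]
  · intro q
    obtain ⟨x, rfl⟩ := Quot.mk_surjective q
    exact ⟨Quotient.mk _ x, rfl⟩

/-! ### the diagram -/

theorem t_norm : S_NORM := by
  intro n m c hc b a ℓ hl g D hD
  have := D.finD
  have hlen : ∀ d, D.pos d < len c ℓ (D.cell d) := by
    intro d
    rw [← rel_len b a g (D.cell d)]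
    exact (List.getElem?_eq_some_iff.1 (D.lett_eq d)).1
  have hlett : ∀ d, (dat hc b a g).letter (tyOf c ℓ (D.cell d) (D.sgn d) (D.pos d)) =
      D.lett d := by
    intro d
    rw [letter_tyOf b a g hc _ _ _ _ (D.lett_eq d)]
    rcases D.sgn d
    · exact Prod.ext rfl (Bool.not_not _)
    · rfl
  let N : ND (dat hc b a g) :=
    { D := D.D
      finD := D.finD
      nxt := D.nxt
      opp := D.opp
      opp_opp := D.opp_opp
      ty := fun d => tyOf c ℓ (D.cell d) (D.sgn d) (D.pos d)
      valid := fun d => valid_tyOf c ℓ (dat hc b a g) rfl rfl _ _ _ (hlen d)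
      ty_nxt := fun d => by
        rw [nx_tyOf c ℓ (dat hc b a g) rfl rfl hc hl _ _ _ (hlen d), D.cell_nxt, D.sgn_nxt,
          D.pos_nxt, rel_len b a g]
      letter_opp := fun d => by
        rw [hlett, hlett, D.lett_opp]
      red := fun d h => by
        rw [mirror_tyOf c ℓ (dat hc b a g) rfl rfl _ _ _ (hlen d)] at h
        have h1 := congrArg (inv c ℓ) h
        rw [inv_tyOf _ _ _ _ _ (hlen _), inv_tyOf _ _ _ _ _ (hlen _)] at h1
        have h2 : D.cell (D.opp d) = D.cell d := congrArg (fun x => x.1) h1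
        have h3 : D.sgn (D.opp d) = !(D.sgn d) := congrArg (fun x => x.2.1) h1
        have h4 : D.pos (D.opp d) = D.pos d := congrArg (fun x => x.2.2) h1
        refine hD d ⟨h2, h4, ?_⟩
        rw [h3]
        cases D.sgn d <;> decide }
  refine ⟨N, ?_⟩
  -- edges
  have hE : Nat.card D.D ≤ 2 * Nat.card (Quot fun x y : D.D => y = D.opp x) :=
    card_opp D.opp D.opp_opp
  -- vertices
  have hV : Nat.card (Quot fun x y : D.D => y = D.opp (D.nxt.symm x)) ≤ Nat.card N.Vtx :=
    card_vtx N.σ
  -- faces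
  have hmk : ∀ d, Quot.mk (fun x y : D.D => y = D.nxt x) (D.nxt d) = Quot.mk _ d := fun d =>
    (Quot.sound (r := fun x y : D.D => y = D.nxt x) (a := d) (b := D.nxt d) rfl).symm
  have hF0 : ∀ q : ℕ, ∀ d, D.sgn d = false → D.pos d = q →
      ∃ d', D.pos d' = 0 ∧ Quot.mk (fun x y : D.D => y = D.nxt x) d' = Quot.mk _ d := by
    intro q
    induction q with
    | zero => intro d _ h; exact ⟨d, h, rfl⟩
    | succ q ih =>
      intro d hs hq
      have h1 : D.pos (D.nxt d) = q := by
        rw [D.pos_nxt, hs, if_neg Bool.false_ne_true, if_neg (by omega)]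
        omega
      obtain ⟨d', h2, h3⟩ := ih (D.nxt d) (by rw [D.sgn_nxt, hs]) h1
      exact ⟨d', h2, h3.trans (hmk d)⟩
  have hF1 : ∀ q : ℕ, ∀ d, D.sgn d = true → D.pos d + q + 1 = (rel b a g (D.cell d)).length →
      ∃ d', D.pos d' = 0 ∧ Quot.mk (fun x y : D.D => y = D.nxt x) d' = Quot.mk _ d := by
    intro q
    induction q with
    | zero =>
      intro d hs hq
      refine ⟨D.nxt d, ?_, hmk d⟩
      rw [D.pos_nxt, hs, if_pos rfl, if_pos (by omega)]
    | succ q ih =>
      intro d hs hq
      have h1 : D.pos (D.nxt d) = D.pos d + 1 := by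
        rw [D.pos_nxt, hs, if_pos rfl, if_neg (by omega)]
      obtain ⟨d', h2, h3⟩ := ih (D.nxt d) (by rw [D.sgn_nxt, hs]) (by
        rw [h1, D.cell_nxt]
        omega)
      exact ⟨d', h2, h3.trans (hmk d)⟩
  have hF : Nat.card (Quot fun x y : D.D => y = D.nxt x) ≤
      Nat.card {d : N.D // IsBase (N.ty d) ∨ IsSt (N.ty d)} := by
    have hfin : Finite {d : N.D // IsBase (N.ty d) ∨ IsSt (N.ty d)} :=
      inferInstanceAs (Finite {d : D.D // IsBase (N.ty d) ∨ IsSt (N.ty d)})
    refine Nat.card_le_card_of_surjective (fun d => Quot.mk _ (d.1 : D.D)) ?_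
    intro q
    obtain ⟨d, rfl⟩ := Quot.mk_surjective q
    have h1 : ∃ d', D.pos d' = 0 ∧ Quot.mk (fun x y : D.D => y = D.nxt x) d' = Quot.mk _ d := by
      rcases hs : D.sgn d with _ | _
      · exact hF0 _ d hs rfl
      · have h2 : D.pos d < (rel b a g (D.cell d)).length := by
          rw [rel_len]
          exact hlen d
        exact hF1 ((rel b a g (D.cell d)).length - D.pos d - 1) d hs (by omega)
    obtain ⟨d', h2, h3⟩ := h1
    refine ⟨⟨d', ?_⟩, h3⟩
    show IsBase (tyOf c ℓ (D.cell d') (D.sgn d') (D.pos d')) ∨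
      IsSt (tyOf c ℓ (D.cell d') (D.sgn d') (D.pos d'))
    rw [h2]
    rcases D.cell d' with j | s
    · rw [ty0]
      exact Or.inl trivial
    · rw [tyS]
      exact Or.inr trivial
  have h := D.euler
  show Nat.card D.D + 4 ≤ _
  omega

end Pool.Agent.N592.WTN
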